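import Pool.Agent.Lib.MP_e3655f_nt.Total

/-! A quantitative lower bound for the number of EHS numbers up to `N`. -/

namespace Pool.Agent.Results.MP_e3655f_nt.TwoThirds

open Pool.Agent.Lib.MP_e3655f_nt Filter Real

theorem ev : ∀ᶠ x : ℝ in atTop, 100 * log x ≤ √x ∧ 100 ≤ x := by
  have h := (isLittleO_log_rpow_atTop (show (0 : ℝ) < 1 / 2 by norm_num)).bound
    (show (0 : ℝ) < 1 / 100 by norm_num)
  filter_upwards [h, eventually_ge_atTop 100] with x hx h6
  rw [norm_eq_abs, norm_eq_abs, abs_of_nonneg (log_nonneg (by linarith)),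
    abs_of_nonneg (by positivity), ← sqrt_eq_rpow] at hx
  exact ⟨by linarith, h6⟩

theorem many : ∀ᶠ M : ℕ in atTop,
    (M : ℝ) ≤ (((4 * M).primesLE.filter (M < ·)).card : ℝ) * log (4 * M) := by
  have t : Tendsto (fun M : ℕ => ((4 * M : ℕ) : ℝ)) atTop atTop :=
    tendsto_natCast_atTop_atTop.comp (tendsto_id.const_mul_atTop' (by norm_num))
  filter_upwards [t.eventually ev] with M ⟨h1, h2⟩
  refine le_trans ?_ (primes_between M)
  have a := Chebyshev.theta_ge (4 * M)
  have b := Chebyshev.theta_le_log4_mul_x (x := M) (by positivity)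
  rw [show (4 : ℝ) = 2 ^ 2 by norm_num, log_pow] at b
  have e : ((4 * M : ℕ) : ℝ) = 4 * M := by push_cast; ring
  set y := ((4 * M : ℕ) : ℝ)
  have c : log (y + 1) ≤ 2 * log y := by
    rw [show 2 * log y = log (y ^ 2) by rw [log_pow]; norm_num]
    exact log_le_log (by linarith) (by nlinarith)
  have d := mul_self_sqrt (show 0 ≤ y by linarith)
  have f : 1 ≤ √y := one_le_sqrt.2 (by linarith)
  have g := mul_le_mul_of_nonneg_left h1 (show 0 ≤ √y by linarith)
  have h3 := log_two_gt_d9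
  have h4 : (M : ℝ) * 0.69 ≤ M * log 2 := mul_le_mul_of_nonneg_left (by linarith) (by positivity)
  push_cast at b
  rw [e] at a
  rw [← e] at a
  nlinarith

open Classical in
theorem step : ∀ᶠ n : ℕ in atTop, ∀ X, (20 * n ^ 3).factorial ≤ X →
    (n : ℝ) ^ 2 / (10 ^ 7 * log n) ≤ ((Finset.Icc 1 X).filter EHS).card := by
  filter_upwards [(tendsto_pow_atTop (show 3 ≠ 0 by norm_num)).eventually many,
    eventually_ge_atTop 24] with n h1 h6 X hX
  have hc : ((((4 * n ^ 3).primesLE.filter (n ^ 3 < ·)).card : ℕ) : ℝ) ≤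
      2400001 * n * (((Finset.Icc 1 X).filter EHS).card : ℝ) := by
    exact_mod_cast total n X h6 hX
  push_cast at h1
  have hx : (24 : ℝ) ≤ n := by exact_mod_cast h6
  set x : ℝ := (n : ℝ)
  set C : ℝ := (((Finset.Icc 1 X).filter EHS).card : ℝ)
  have hC : 0 ≤ C := by positivity
  have hl : 0 < log x := log_pos (by linarith)
  have hl2 : log (4 * x ^ 3) ≤ 4 * log x := by
    rw [log_mul (by norm_num) (by positivity), log_pow]
    have := log_le_log (show (0 : ℝ) < 4 by norm_num) (show 4 ≤ x by linarith)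
    push_cast; linarith
  have hl3 : 0 ≤ log (4 * x ^ 3) := log_nonneg (by nlinarith [one_le_pow₀ (n := 3) (show 1 ≤ x by linarith)])
  have h5 := h1.trans (mul_le_mul hc hl2 hl3 (by positivity))
  rw [div_le_iff₀ (by positivity)]
  refine le_of_mul_le_mul_left (a := x) ?_ (by positivity)
  have : 0 ≤ x * C * log x := by positivity
  nlinarith

theorem result : ∃ c : ℝ, 0 < c ∧ ∀ᶠ N : ℕ in Filter.atTop,
    c * (Real.log N) ^ ((2 : ℝ) / 3) / (Real.log (Real.log N)) ^ ((5 : ℝ) / 3) ≤
      (Nat.card {m : ℕ // 1 ≤ m ∧ m ≤ N ∧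
        ∃ p : ℕ, p.Prime ∧ p ∣ m.factorial + 1 ∧ ¬ Nat.ModEq m p 1} : ℝ) := by
  classical
  refine ⟨1 / (36 * 10 ^ 7), by norm_num, ?_⟩
  have tL : Tendsto (fun N : ℕ => log (N : ℝ)) atTop atTop :=
    tendsto_log_atTop.comp tendsto_natCast_atTop_atTop
  have t1 : Tendsto (fun L : ℝ => L / (20 * log L)) atTop atTop := by
    have := tendsto_exp_div_pow_atTop 1
    have h := (this.comp tendsto_log_atTop).atTop_div_const (show (0 : ℝ) < 20 by norm_num)
    refine h.congr' ?_
    filter_upwards [eventually_gt_atTop 0] with L hL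
    simp only [Function.comp, exp_log hL, pow_one]
    rw [div_div, mul_comm]
  have t2 : Tendsto (fun L : ℝ => (L / (20 * log L)) ^ ((1 : ℝ) / 3)) atTop atTop :=
    (tendsto_rpow_atTop (by norm_num)).comp t1
  have t3 := (tendsto_nat_floor_atTop.comp t2).comp tL
  filter_upwards [t3.eventually step, t3.eventually_ge_atTop 2, tL.eventually_ge_atTop 3,
    eventually_ge_atTop 1] with N hs hn2 hL hN
  simp only [Function.comp] at hs hn2
  set L := log (N : ℝ) with hLd
  set y := (L / (20 * log L)) ^ ((1 : ℝ) / 3) with hy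
  set n := ⌊y⌋₊ with hn
  have hl1 : 1 ≤ log L := by
    rw [le_log_iff_exp_le (by linarith)]
    have := exp_one_lt_d9; linarith
  have hq : 0 < L / (20 * log L) := by positivity
  have hy0 : 0 ≤ y := by positivity
  have hy3 : y ^ 3 = L / (20 * log L) := by
    rw [hy, ← rpow_natCast, ← rpow_mul hq.le]; norm_num
  have hny : (n : ℝ) ≤ y := Nat.floor_le hy0
  have hn2' : (2 : ℝ) ≤ n := by exact_mod_cast hn2
  have hyn : y ≤ 2 * n := by have := Nat.lt_floor_add_one y; linarith
  have h1 : 20 * (n : ℝ) ^ 3 * log L ≤ L := by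
    have := pow_le_pow_left₀ (by positivity) hny 3
    rw [hy3, le_div_iff₀ (by positivity)] at this
    linarith
  have hn3 : (n : ℝ) ≤ (n : ℝ) ^ 3 := le_self_pow₀ (by linarith) (by norm_num)
  have h2 : 20 * (n : ℝ) ^ 3 ≤ L := by nlinarith
  have hX : (20 * n ^ 3).factorial ≤ N := by
    refine (Nat.factorial_le_pow _).trans ?_
    have : ((20 * n ^ 3 : ℕ) : ℝ) ^ (20 * n ^ 3) ≤ N := by
      rw [← log_le_log_iff (by positivity) (by positivity), log_pow]
      push_cast
      exact (mul_le_mul_of_nonneg_left (log_le_log (by positivity) h2) (by positivity)).trans h1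
    exact_mod_cast this
  have hcard : Nat.card {m : ℕ // 1 ≤ m ∧ m ≤ N ∧
      ∃ p : ℕ, p.Prime ∧ p ∣ m.factorial + 1 ∧ ¬ Nat.ModEq m p 1} =
      ((Finset.Icc 1 N).filter EHS).card :=
    Nat.subtype_card _ fun m => by simp [EHS, and_assoc]
  rw [hcard]
  refine le_trans ?_ (hs N hX)
  have hln : log n ≤ log L := log_le_log (by linarith) (by linarith)
  have hln0 : 0 < log (n : ℝ) := log_pos (by linarith)
  set z := (log L) ^ ((1 : ℝ) / 3) with hz
  have hz0 : 0 < z := by positivity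
  have sq : ∀ u : ℝ, 0 ≤ u → u ^ ((2 : ℝ) / 3) = (u ^ ((1 : ℝ) / 3)) ^ 2 := fun u hu => by
    rw [← rpow_natCast, ← rpow_mul hu]; norm_num
  have e1 : (log L) ^ ((5 : ℝ) / 3) = log L * z ^ 2 := by
    rw [hz, show (5 : ℝ) / 3 = 1 + 2 / 3 by norm_num, rpow_add (by linarith), rpow_one,
      sq _ (by linarith)]
  have e2 : L ^ ((1 : ℝ) / 3) ≤ 3 * y * z := by
    have a : L ^ ((1 : ℝ) / 3) ≤ (27 * (L / (20 * log L)) * log L) ^ ((1 : ℝ) / 3) := by
      refine rpow_le_rpow (by linarith) ?_ (by norm_num)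
      have : 27 * (L / (20 * log L)) * log L = 27 / 20 * L := by field_simp
      linarith
    rw [mul_rpow (by positivity) (by positivity), mul_rpow (by positivity) hq.le,
      show (27 : ℝ) = 3 ^ (3 : ℕ) by norm_num, ← rpow_natCast, ← rpow_mul (by norm_num)] at a
    norm_num at a
    simpa [hy, hz] using a
  rw [e1, sq L (by linarith), div_le_div_iff₀ (by positivity) (by positivity)]
  have a1 : L ^ ((1 : ℝ) / 3) ≤ 6 * n * z := e2.trans (by nlinarith)
  have a2 := mul_le_mul (pow_le_pow_left₀ (by positivity) a1 2) hln hln0.le (by positivity)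
  nlinarith

end Pool.Agent.Results.MP_e3655f_nt.TwoThirds
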